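import Pool.Agent.NBT.StmtsA

/-!
# NBT, row CHT: chain exclusion inside a triple box
-/

set_option autoImplicit false

open Matrix Filter Topology

namespace Pool.Agent.NBT.H70

open Pool.Agent.PFS Pool.Agent.PFJ Pool.Agent.NBT

/-- A unit of `B_I` determines `B_I`. -/
theorem bi_eq {n K : ℕ} {C : Set (V n)} (hP : PCone C) {w : Fin K → V n}
    (hw : ∀ i, w i ∈ closure C) {I : Finset (Fin K)} {z : V n} (hz : Unt C (BI C w I) z) :
    Submodule.span ℝ (Face C z) = BI C w I :=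
  (fcs n C hP (fS w I) (fS_cl hP hw I)).2.2.2.2 z hz

theorem cht (hTBF : TbfStmt) (hBIN : BinStmt) (hPJF : PjfStmt) (hNPR : NprStmt) : ChtStmt := by
  intro n C Γ Γ₀ K T c h w tw k m j x y hkm hmj hkj hc hx hy hxI hyI hS
  have hP : PCone C := h.cc.toPCone
  have hul : HulFacts C Γ := h.cc.hul
  have tw1 := hx.mem
  have tw2 := hy.mem
  set w1 : Fin K → V n := Function.update w k x with hw1
  set w2 : Fin K → V n := Function.update w m y with hw2
  have hw := h.pes w tw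
  have hp1 := h.pes w1 tw1
  have hp2 := h.pes w2 tw2
  have cw : ∀ i, w i ∈ closure C := fun i => hul.lamCl _ (hw.2 i)
  have cw1 : ∀ i, w1 i ∈ closure C := fun i => hul.lamCl _ (hp1.2 i)
  have cw2 : ∀ i, w2 i ∈ closure C := fun i => hul.lamCl _ (hp2.2 i)
  have e1k : w1 k = x := Function.update_self k x w
  have e2m : w2 m = y := Function.update_self m y w
  have e1 : ∀ l, l ≠ k → w1 l = w l := fun l hl => Function.update_of_ne hl x w
  have e2 : ∀ l, l ≠ m → w2 l = w l := fun l hl => Function.update_of_ne hl y w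
  have hxc : x ∈ closure C := e1k ▸ cw1 k
  have hyc : y ∈ closure C := e2m ▸ cw2 m
  obtain ⟨t1, -, -, -, -, t6, t7, -, -, -, t11, -⟩ := hTBF n C Γ Γ₀ K T c h w tw
  obtain ⟨-, -, -, -, -, u6, -, -, -, -, u11, -⟩ := hTBF n C Γ Γ₀ K T c h w2 tw2
  obtain ⟨-, -, b3, -⟩ := hBIN n C Γ Γ₀ K T c h w tw
  have hI1 : BI C w1 {k, m, j} = BI C w {k, m, j} := by
    refine b3 w1 tw1 _ fun i hi => ?_
    by_cases hik : i = k
    · rw [hik, e1k]
      exact hxI
    · rw [e1 i hik]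
      exact (t6 i _).2 hi
  have hI2 : BI C w2 {k, m, j} = BI C w {k, m, j} := by
    refine b3 w2 tw2 _ fun i hi => ?_
    by_cases him : i = m
    · rw [him, e2m]
      exact hyI
    · rw [e2 i him]
      exact (t6 i _).2 hi
  have hxB : x ∈ BI C w {k, m} := by
    have h1 := hNPR n C Γ Γ₀ K T c h w w1 tw tw1 k m j hkm hmj hkj hc
      (fun l hlk _ => e1 l hlk) hI1.symm
    rwa [e1k] at h1
  have hxB2 : x ∈ BI C w2 {k, m} := by
    have h1 := hNPR n C Γ Γ₀ K T c h w2 w1 tw2 tw1 k m j hkm hmj hkj hc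
      (fun l hlk hlm => by rw [e1 l hlk, e2 l hlm]) (hI2.trans hI1.symm)
    rwa [e1k] at h1
  have hkB : w k ∈ BI C w {k, m} := (t6 k _).2 (by simp)
  have hkB2 : w k ∈ BI C w2 {k, m} := by
    have h1 : w2 k ∈ BI C w2 {k, m} := (u6 k _).2 (by simp)
    rwa [e2 k hkm] at h1
  have hk0 : w k ≠ 0 := hul.lamNe _ (hw.2 k)
  have hind : Ind2 x (w k) := ind2_of_ne hk0 hx.ne
  have hu1 := bi_eq hP cw (t11 k m hkm x hxB (w k) hkB hxc (cw k) hind)
  have hu2 := bi_eq hP cw2 (u11 k m hkm x hxB2 (w k) hkB2 hxc (cw k) hind)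
  have hyB : y ∈ BI C w {k, m} := by
    have h1 : w2 m ∈ BI C w2 {k, m} := (u6 m _).2 (by simp)
    rw [e2m, ← hu2, hu1] at h1
    exact h1
  obtain ⟨M, -, hM⟩ := (t1 {k, m}).2.2 y hyB
  obtain ⟨-, p, hp, hpy⟩ := hS
  obtain ⟨j1, -⟩ := hPJF n C Γ Γ₀ K T c h w tw {m, j} p hp
  have hpk : p (w k) = 0 := by
    refine j1 k ?_
    simp only [Finset.mem_insert, Finset.mem_singleton, not_or]
    exact ⟨hkm, hkj⟩
  have hpm : p (w m) = w m := hp.idB _ ((t6 m _).2 (by simp))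
  have h2 : p (M • fS w {k, m} - y) = M • w m - p y := by
    rw [fS_pair w hkm, map_sub, map_smul, map_add, hpk, hpm, zero_add]
  have h3 := hp.pos _ hM
  rw [h2] at h3
  obtain ⟨a, ha⟩ := ext_mul (t7 m) (hp.pos _ hyc) h3
  exact hpy a ha

end Pool.Agent.NBT.H70
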